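import Pool.Agent.CoreIdeals.Basic

set_option autoImplicit false

open Pool.Agent.CoreIdeals

namespace Pool.Agent.Results.MP_429122_al.AllReductions

universe u v w

/-- The equality asked for in Q1, exactly as worded in the problem file (cores are intersections
over *all* reductions, homogeneous or not): for every field `k` and every standard graded
`k`-algebra `A`, with `R` the localization of `A` at `A_+` and `m = A_+ R` its maximal ideal,
`core(m) = core(A_+) R`. -/
theorem result (k : Type u) [Field k] (A : Type v) [CommRing A] [Algebra k A]
    (𝒜 : ℕ → Submodule k A) [GradedAlgebra 𝒜] [IsStandardGraded 𝒜]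
    (R : Type w) [CommRing R] [Algebra A R] [IsLocalization.AtPrime R (plus 𝒜)] :
    core ((plus 𝒜).map (algebraMap A R)) = (core (plus 𝒜)).map (algebraMap A R) :=
  core_map_eq (plus 𝒜) R

end Pool.Agent.Results.MP_429122_al.AllReductions
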