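import Pool.Agent.CoreIdeals.ExampleCore

set_option autoImplicit false

open Pool.Agent.CoreIdeals

namespace Pool.Agent.Results.MP_429122_al.HomogeneousReductions

universe u

/-- For every field `k` there is a standard graded `k`-algebra `A` such that, with `R = A_{A_+}` and
`m = A_+ R` its maximal ideal, `core(m)` is strictly smaller than the extension to `R` of the
intersection of any set `𝒥` of *homogeneous* reductions of `A_+`; in particular (`𝒥` = all
homogeneous reductions) `core(m)` differs from the extension of the graded core of `A_+`. -/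
theorem result (k : Type u) [Field k] :
    ∃ (A : Type u) (_ : CommRing A) (_ : Algebra k A) (𝒜 : ℕ → Submodule k A)
      (_ : GradedAlgebra 𝒜) (_ : IsStandardGraded 𝒜), CoreLtHomogeneous 𝒜 := by
  refine ⟨Example.Alg k, inferInstance, inferInstance, Example.grading k, inferInstance,
    inferInstance, ?_⟩
  intro R _ _ _ 𝒥 h𝒥
  rw [core_map_eq (plus (Example.grading k)) R]
  have hle : core (plus (Example.grading k)) ≤ sInf 𝒥 := sInf_le_sInf (fun J hJ => (h𝒥 J hJ).1)
  refine lt_of_le_of_ne (Ideal.map_mono hle) ?_
  intro heq
  have h1 : Example.gen k 0 * Example.gen k 3 ∈ sInf 𝒥 := by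
    rw [Ideal.mem_sInf]
    intro J hJ
    exact Example.xg_mem k (h𝒥 J hJ).1 (h𝒥 J hJ).2
  have h2 := Ideal.mem_map_of_mem (algebraMap (Example.Alg k) R) h1
  rw [← heq] at h2
  have h3 : core (plus (Example.grading k)) ≤ Example.J0 k := sInf_le (Example.J0_isReduction k)
  have h4 := Ideal.map_mono (f := algebraMap (Example.Alg k) R) h3 h2
  rw [← Ideal.mem_comap, under_map_of_isReduction (plus (Example.grading k)) R
    (Example.J0_isReduction k)] at h4
  exact Example.xg_notMem_J0 k h4

end Pool.Agent.Results.MP_429122_al.HomogeneousReductions
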